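import Pool.Agent.Helper97.Tns.Goals

/-!
Packet CPT: if tensors detect all nonzero vectors, finitely many of them form a semistable family.
-/

open scoped Topology
open Pool.Agent.Helper97.Tns

namespace Pool.Agent.Helper47.Tns

theorem expand {n a : ℕ} (T : Ten n a) (v : Fin n → ℂ) :
    T (fun _ => v) = ∑ J : Fin a → Fin n, (∏ t, v (J t)) • T (fun t => Pi.single (J t) 1) := by
  classical
  have h1 : (fun _ : Fin a => v) =
      fun _ : Fin a => ∑ k : Fin n, v k • (Pi.single k (1 : ℂ) : Fin n → ℂ) := by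
    funext _ i
    simp [Finset.sum_apply, Pi.single_apply]
  rw [h1, MultilinearMap.map_sum]
  refine Finset.sum_congr rfl (fun J _ => ?_)
  rw [MultilinearMap.map_smul_univ]

theorem continuous_diag {n a : ℕ} (T : Ten n a) : Continuous fun v : Fin n → ℂ => T (fun _ => v) := by
  have : (fun v : Fin n → ℂ => T (fun _ => v)) = fun v => ∑ J : Fin a → Fin n,
      (∏ t, v (J t)) • T (fun t => Pi.single (J t) 1) := by
    funext v
    exact expand T v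
  rw [this]
  fun_prop

theorem det_large {n : ℕ} (hn : 0 < n) (A : Matrix (Fin n) (Fin n) ℂ) (hA : A.det = 1) :
    ∃ i k, 1 / (n.factorial : ℝ) ≤ ‖A i k‖ := by
  by_contra hcon
  push Not at hcon
  have hf : (1 : ℝ) ≤ n.factorial := by exact_mod_cast Nat.succ_le_of_lt n.factorial_pos
  have : Nonempty (Fin n × Fin n) := ⟨(⟨0, hn⟩, ⟨0, hn⟩)⟩
  obtain ⟨⟨i, k⟩, hik⟩ := Finite.exists_max (fun ik : Fin n × Fin n => ‖A ik.1 ik.2‖)
  have h1 := Matrix.det_le (A := A) (abv := NormedField.toAbsoluteValue ℂ) (x := ‖A i k‖)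
    (fun a b => hik (a, b))
  have h2 : (NormedField.toAbsoluteValue ℂ) A.det = 1 := by rw [hA, map_one]
  rw [h2, Fintype.card_fin, nsmul_eq_mul] at h1
  have h3 := hcon i k
  have h4 : ‖A i k‖ ≤ 1 := h3.le.trans (by rw [div_le_one (by linarith)]; exact hf)
  have h5 : ‖A i k‖ ^ n ≤ ‖A i k‖ := by
    calc ‖A i k‖ ^ n ≤ ‖A i k‖ ^ 1 := pow_le_pow_of_le_one (norm_nonneg _) h4 hn
      _ = ‖A i k‖ := pow_one _
  have h6 : (n.factorial : ℝ) * ‖A i k‖ < 1 := by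
    rw [lt_div_iff₀ (by linarith)] at h3
    linarith
  have h7 : (n.factorial : ℝ) * ‖A i k‖ ^ n ≤ n.factorial * ‖A i k‖ :=
    mul_le_mul_of_nonneg_left h5 (by linarith)
  linarith

theorem cpt : S_CPT := by
  classical
  intro n hn PP hPP
  let Idx := Σ a : ℕ, Σ b : ℤ, {T : Ten n a // PP a b T}
  have hcomp : IsCompact (Metric.sphere (0 : Fin n → ℂ) 1) := isCompact_sphere _ _
  obtain ⟨t, ht⟩ := hcomp.elim_finite_subcover
    (fun τ : Idx => {v : Fin n → ℂ | τ.2.2.1 (fun _ => v) ≠ 0})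
    (fun τ => isOpen_ne_fun (continuous_diag τ.2.2.1) continuous_const) (by
      intro v hv
      have hv0 : v ≠ 0 := by
        rintro rfl
        simp at hv
      obtain ⟨a, b, T, hT, hT'⟩ := hPP v hv0
      exact Set.mem_iUnion.2 ⟨⟨a, b, ⟨T, hT⟩⟩, hT'⟩)
  -- a positive lower bound on the sphere
  have hcont : Continuous fun v : Fin n → ℂ => ∑ τ ∈ t, ‖τ.2.2.1 (fun _ => v)‖ :=
    continuous_finsetSum _ (fun τ _ => (continuous_diag τ.2.2.1).norm)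
  have hne : (Metric.sphere (0 : Fin n → ℂ) 1).Nonempty := by
    refine ⟨fun _ => 1, ?_⟩
    have : Nonempty (Fin n) := ⟨⟨0, hn⟩⟩
    simp
  obtain ⟨u₀, hu₀, hmin⟩ := hcomp.exists_isMinOn hne hcont.continuousOn
  set m : ℝ := ∑ τ ∈ t, ‖τ.2.2.1 (fun _ => u₀)‖ with hm
  have hmpos : 0 < m := by
    obtain ⟨τ, hτ, hτ'⟩ := Set.mem_iUnion₂.1 (ht hu₀)
    exact lt_of_lt_of_le (norm_pos_iff.2 hτ')
      (Finset.single_le_sum (f := fun τ : Idx => ‖τ.2.2.1 (fun _ => u₀)‖)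
        (fun _ _ => norm_nonneg _) hτ)
  have hcardpos : 0 < t.card := by
    obtain ⟨τ, hτ, _⟩ := Set.mem_iUnion₂.1 (ht hu₀)
    exact Finset.card_pos.2 ⟨τ, hτ⟩
  have hlow : ∀ u ∈ Metric.sphere (0 : Fin n → ℂ) 1, ∃ τ ∈ t, m / t.card ≤
      ‖τ.2.2.1 (fun _ => u)‖ := by
    intro u hu
    by_contra hcon
    push Not at hcon
    have h1 : ∑ τ ∈ t, ‖τ.2.2.1 (fun _ => u)‖ < ∑ τ ∈ t, m / t.card :=
      Finset.sum_lt_sum_of_nonempty (Finset.card_pos.1 hcardpos) hcon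
    rw [Finset.sum_const, nsmul_eq_mul, mul_div_cancel₀ _ (by positivity)] at h1
    have h2 : m ≤ ∑ τ ∈ t, ‖τ.2.2.1 (fun _ => u)‖ := hmin hu
    linarith
  set A₀ : ℕ := t.sup (fun τ => τ.1) with hA₀
  set c₁ : ℝ := 1 / (n.factorial : ℝ) with hc₁
  have hf : (1 : ℝ) ≤ n.factorial := by exact_mod_cast Nat.succ_le_of_lt n.factorial_pos
  have hc₁pos : 0 < c₁ := by positivity
  have hc₁le : c₁ ≤ 1 := by rw [hc₁, div_le_one (by linarith)]; exact hf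
  let e := t.equivFin
  refine ⟨t.card, fun j => (e.symm j).1.1, fun j => (e.symm j).1.2.1,
    fun j => (e.symm j).1.2.2.1, fun j => (e.symm j).1.2.2.2, c₁ ^ A₀ * (m / t.card),
    by positivity, ?_⟩
  intro A hA
  obtain ⟨i, k, hik⟩ := det_large hn A hA
  set v : Fin n → ℂ := fun i => A i k with hv
  have hρ : c₁ ≤ ‖v‖ := hik.trans (norm_le_pi_norm v i)
  have hρpos : 0 < ‖v‖ := lt_of_lt_of_le hc₁pos hρ
  set u : Fin n → ℂ := ((‖v‖⁻¹ : ℝ) : ℂ) • v with hu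
  have hunorm : u ∈ Metric.sphere (0 : Fin n → ℂ) 1 := by
    rw [mem_sphere_zero_iff_norm, hu, norm_smul]
    rw [Complex.norm_real, norm_inv, norm_norm, inv_mul_cancel₀ hρpos.ne']
  have hvu : v = ((‖v‖ : ℝ) : ℂ) • u := by
    rw [hu, smul_smul, ← Complex.ofReal_mul, mul_inv_cancel₀ hρpos.ne']
    simp
  obtain ⟨τ, hτ, hτ'⟩ := hlow u hunorm
  refine ⟨e ⟨τ, hτ⟩, fun _ => k, ?_⟩
  have key : c₁ ^ A₀ * (m / t.card) ≤ ‖τ.2.2.1 (fun _ => v)‖ := by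
    have h1 : τ.2.2.1 (fun _ => v) = (((‖v‖ : ℝ) : ℂ) ^ τ.1) • τ.2.2.1 (fun _ => u) := by
      have h2 := τ.2.2.1.map_smul_univ (fun _ => ((‖v‖ : ℝ) : ℂ)) (fun _ => u)
      rw [Finset.prod_const, Finset.card_univ, Fintype.card_fin, ← hvu] at h2
      exact h2
    rw [h1, norm_smul, norm_pow, Complex.norm_real, norm_norm]
    have h3 : c₁ ^ A₀ ≤ ‖v‖ ^ τ.1 := by
      calc c₁ ^ A₀ ≤ c₁ ^ τ.1 := pow_le_pow_of_le_one hc₁pos.le hc₁le
            (Finset.le_sup (f := fun τ : Idx => τ.1) hτ)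
        _ ≤ ‖v‖ ^ τ.1 := pow_le_pow_left₀ hc₁pos.le hρ _
    exact mul_le_mul h3 hτ' (div_nonneg hmpos.le (Nat.cast_nonneg _)) (pow_nonneg (norm_nonneg _) _)
  have h5 : (e.symm (e ⟨τ, hτ⟩)) = ⟨τ, hτ⟩ := e.symm_apply_apply _
  show c₁ ^ A₀ * (m / t.card) ≤ ‖(e.symm (e ⟨τ, hτ⟩)).1.2.2.1 (fun _ => v)‖
  rw [h5]
  exact key

end Pool.Agent.Helper47.Tns
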